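import Mathlib

set_option autoImplicit false

/-! A counting lemma about the cube and chains of strings. -/

namespace Pool.Agent.V11258.TC

open Finset

/-- the string with a given code -/
def lst (s : ℕ) : List ℕ := Denumerable.ofNat (List ℕ) s

theorem card_agree {N : ℕ} (J : Finset (Fin N)) (c : Fin N → Bool) :
    (univ.filter fun b : Fin N → Bool => ∀ j ∈ J, b j = c j).card * 2 ^ J.card = 2 ^ N := by
  classical
  have h1 : (univ.filter fun b : Fin N → Bool => ∀ j ∈ J, b j = c j) =
      Fintype.piFinset (fun j => if j ∈ J then {c j} else univ) := by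
    ext b
    simp only [mem_filter, mem_univ, true_and, Fintype.mem_piFinset]
    constructor
    · intro h j
      by_cases hj : j ∈ J
      · rw [if_pos hj, mem_singleton]; exact h j hj
      · rw [if_neg hj]; exact mem_univ _
    · intro h j hj
      have := h j
      rw [if_pos hj, mem_singleton] at this
      exact this
  rw [h1, Fintype.card_piFinset]
  have h2 : ∀ j : Fin N, (if j ∈ J then ({c j} : Finset Bool) else univ).card =
      if j ∈ J then 1 else 2 := by
    intro j
    by_cases hj : j ∈ J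
    · simp [hj]
    · simp [hj]
  simp_rw [h2]
  have h3 : (2 : ℕ) ^ J.card = ∏ j : Fin N, (if j ∈ J then 2 else 1) := by
    rw [Finset.prod_ite, Finset.prod_const, Finset.prod_const_one, mul_one]
    congr 2
    ext j
    simp
  rw [h3, ← Finset.prod_mul_distrib]
  have h4 : ∀ j : Fin N, ((if j ∈ J then 1 else 2) * (if j ∈ J then 2 else 1) : ℕ) = 2 := by
    intro j
    by_cases hj : j ∈ J <;> simp [hj]
  simp_rw [h4]
  simp

theorem comb {n K N : ℕ} (hN : N = n * K) (hK : n < 2 ^ K) (hK2 : 2 ≤ K) (hn : 1 ≤ n)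
    (B : Fin n → (Fin N → Bool) → Set ℕ)
    (P1 : ∀ i c s t, s ∉ B i c → t ∉ B i c → lst s <+: lst t ∨ lst t <+: lst s)
    (P1' : ∀ i c s t, lst t <+: lst s → s ∉ B i c → t ∉ B i c)
    (P3 : ∀ c (j : Fin N), ∃ i s, s ∈ B i c ∧ ∀ b, b j ≠ c j → s ∉ B i b) : False := by
  classical
  choose ci cs hcs hcb using P3
  -- the popular colour
  have h1 : ∀ c : Fin N → Bool, ∃ i : Fin n, K ≤ (univ.filter fun j => ci c j = i).card := by
    intro c
    have := Finset.exists_le_card_fiber_of_mul_le_card_of_maps_to (s := (univ : Finset (Fin N)))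
      (t := (univ : Finset (Fin n))) (f := ci c) (n := K) (fun _ _ => mem_univ _)
      ⟨⟨0, hn⟩, mem_univ _⟩ (by simp [hN])
    obtain ⟨i, _, hi⟩ := this
    exact ⟨i, hi⟩
  choose I hI using h1
  let J : (Fin N → Bool) → Finset (Fin N) := fun c => univ.filter fun j => ci c j = I c
  have hJ : ∀ c j, j ∈ J c ↔ ci c j = I c := fun c j => by simp [J]
  have hJne : ∀ c, (J c).Nonempty := by
    intro c
    rw [← Finset.card_pos]
    have h9 : K ≤ (J c).card := hI c
    omega
  -- the shortest string
  have h2 : ∀ c, ∃ j0 ∈ J c, ∀ j ∈ J c, (lst (cs c j0)).length ≤ (lst (cs c j)).length := by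
    intro c
    obtain ⟨j0, h3, h4⟩ := Finset.exists_min_image (J c) (fun j => (lst (cs c j)).length) (hJne c)
    exact ⟨j0, h3, h4⟩
  choose j0 hj0 hmin using h2
  let τ : (Fin N → Bool) → ℕ := fun c => cs c (j0 c)
  have hτ1 : ∀ c, τ c ∈ B (I c) c := by
    intro c
    have := hcs c (j0 c)
    rw [(hJ c _).1 (hj0 c)] at this
    exact this
  have hτ2 : ∀ c b, (∃ j ∈ J c, b j ≠ c j) → τ c ∉ B (I c) b := by
    rintro c b ⟨j, hj, hb⟩
    have e1 := (hJ c _).1 (hj0 c)
    have e2 := (hJ c _).1 hj
    have h3 : τ c ∉ B (I c) (fun k => !(c k)) := by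
      have := hcb c (j0 c) (fun k => !(c k)) (by simp)
      rw [e1] at this
      exact this
    have h4 : cs c j ∉ B (I c) (fun k => !(c k)) := by
      have := hcb c j (fun k => !(c k)) (by simp)
      rw [e2] at this
      exact this
    have h5 : cs c j ∉ B (I c) b := by
      have := hcb c j b hb
      rw [e2] at this
      exact this
    have h6 : lst (τ c) <+: lst (cs c j) := by
      rcases P1 _ _ _ _ h3 h4 with h | h
      · exact h
      · have h7 := hmin c j hj
        have h8 := h.eq_of_length_le h7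
        rw [h8]
    exact P1' _ _ _ _ h6 h5
  have hbad : ∀ c, (univ.filter fun b => τ c ∈ B (I c) b).card * 2 ^ K ≤ 2 ^ N := by
    intro c
    have h3 : (univ.filter fun b => τ c ∈ B (I c) b) ⊆
        univ.filter fun b : Fin N → Bool => ∀ j ∈ J c, b j = c j := by
      intro b hb
      rw [mem_filter] at hb ⊢
      refine ⟨mem_univ _, fun j hj => ?_⟩
      by_contra hne
      exact hτ2 c b ⟨j, hj, hne⟩ hb.2
    calc (univ.filter fun b => τ c ∈ B (I c) b).card * 2 ^ K
        ≤ (univ.filter fun b : Fin N → Bool => ∀ j ∈ J c, b j = c j).card * 2 ^ (J c).card :=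
          Nat.mul_le_mul (Finset.card_le_card h3) (Nat.pow_le_pow_right (by norm_num) (hI c))
      _ = 2 ^ N := card_agree _ _
  -- popular corner colour
  have hKN : K ≤ N := by rw [hN]; exact Nat.le_mul_of_pos_left K hn
  have hpow : 2 ^ (N - K) * 2 ^ K = 2 ^ N := by rw [← pow_add]; congr 1; omega
  have hbad' : ∀ c, (univ.filter fun b => τ c ∈ B (I c) b).card ≤ 2 ^ (N - K) := by
    intro c
    have := hbad c
    rw [← hpow] at this
    exact Nat.le_of_mul_le_mul_right this (by positivity)
  obtain ⟨i, _, hi⟩ := Finset.exists_lt_card_fiber_of_mul_lt_card_of_maps_to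
    (s := (univ : Finset (Fin N → Bool))) (t := (univ : Finset (Fin n))) (f := I)
    (n := 2 ^ (N - K)) (fun _ _ => mem_univ _) (by
      rw [Finset.card_univ, Finset.card_univ, Fintype.card_fin, Fintype.card_fun, Fintype.card_fin,
        Fintype.card_bool, ← hpow, Nat.mul_comm]
      exact Nat.mul_lt_mul_of_pos_left hK (by positivity))
  let G : Finset (Fin N → Bool) := univ.filter fun c => I c = i
  have hG : ∀ c, c ∈ G ↔ I c = i := fun c => by simp [G]
  have hGne : G.Nonempty := by
    rw [← Finset.card_pos]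
    exact lt_of_le_of_lt (Nat.zero_le _) hi
  obtain ⟨cm, hcm, hmax⟩ := Finset.exists_max_image G (fun c => (lst (τ c)).length) hGne
  have hcomp : ∀ c ∈ G, lst (τ c) <+: lst (τ cm) := by
    intro c hc
    have e1 := (hG c).1 hc
    have e2 := (hG cm).1 hcm
    have h3 : ∃ b, τ c ∉ B i b ∧ τ cm ∉ B i b := by
      by_contra hcon
      push Not at hcon
      have h4 : (univ : Finset (Fin N → Bool)) ⊆ (univ.filter fun b => τ c ∈ B (I c) b) ∪
          (univ.filter fun b => τ cm ∈ B (I cm) b) := by
        intro b _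
        rw [mem_union, mem_filter, mem_filter, e1, e2]
        by_cases h5 : τ c ∈ B i b
        · exact Or.inl ⟨mem_univ _, h5⟩
        · exact Or.inr ⟨mem_univ _, hcon b h5⟩
      have h5 := (Finset.card_le_card h4).trans (Finset.card_union_le _ _)
      rw [Finset.card_univ, Fintype.card_fun, Fintype.card_fin, Fintype.card_bool, ← hpow] at h5
      have h6 := hbad' c
      have h7 := hbad' cm
      have h8 : (4 : ℕ) ≤ 2 ^ K := by
        calc (4 : ℕ) = 2 ^ 2 := by norm_num
          _ ≤ 2 ^ K := Nat.pow_le_pow_right (by norm_num) hK2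
      have h9 : 0 < 2 ^ (N - K) := by positivity
      have h10 : 2 ^ (N - K) * 4 ≤ 2 ^ (N - K) * 2 ^ K := Nat.mul_le_mul_left _ h8
      omega
    obtain ⟨b, hb1, hb2⟩ := h3
    rcases P1 i b _ _ hb1 hb2 with h | h
    · exact h
    · have h4 := hmax c hc
      have h5 := h.eq_of_length_le h4
      rw [h5]
  have hsub : G ⊆ univ.filter fun b => τ cm ∈ B (I cm) b := by
    intro c hc
    rw [mem_filter, (hG cm).1 hcm]
    refine ⟨mem_univ _, ?_⟩
    by_contra hne
    have h3 := P1' i c _ _ (hcomp c hc) hne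
    have h4 := hτ1 c
    rw [(hG c).1 hc] at h4
    exact h3 h4
  have := Finset.card_le_card hsub
  have := hbad' cm
  have h3 : 2 ^ (N - K) < G.card := hi
  omega

end Pool.Agent.V11258.TC
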